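import Mathlib

/-!
# Larsen's question for hyperelliptic Jacobians (MP_6b5a9a_nt): definitions and targets

`HR k f` is the ring `k[x][y] / (y² - f)`, elements `⟨a, b⟩ = a + b y`.
`II f u w` is the ideal `(u, y - w)` of `HR k f`.
Every `T_xxx : Prop` is to be proved as a theorem in its own file.
-/

open Polynomial

namespace Pool.Agent.H62.HE

universe u

/-- the ring `k[x][y] / (y² - f)` -/
abbrev HR (k : Type u) [Field k] (f : k[X]) : Type u := QuadraticAlgebra k[X] f 0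

/-- the ideal `(u, y - w)` -/
noncomputable def II {k : Type u} [Field k] (f u w : k[X]) : Ideal (HR k f) :=
  Ideal.span {(⟨u, 0⟩ : HR k f), (⟨-w, 1⟩ : HR k f)}

/-! ## NT: non-torsion (valuation theory, polynomials only) -/

/-- EX: linear algebra. -/
def T_EX : Prop := ∀ (k : Type u) [Field k] (U W : k[X]) (g : ℕ), 1 ≤ U.natDegree →
  ∃ s0 s1 : k[X], (s0 ≠ 0 ∨ s1 ≠ 0) ∧ U ∣ X ^ g * s0 + s1 * W ∧
    2 * s0.natDegree ≤ U.natDegree ∧ 2 * s1.natDegree + 1 ≤ U.natDegree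

/-- NL: the norm lemma. -/
def T_NL : Prop := ∀ (k : Type u) [Field k] (Γ₀ : Type u) [LinearOrderedCommGroupWithZero Γ₀]
  (v : Valuation k Γ₀) (g e : ℕ) (f : k[X]), f.Monic → f.natDegree = 2 * g + 1 →
  (∀ i, v (f.coeff i) ≤ 1) → e ≤ g → ∀ μ : k, μ ≠ 0 → v μ ≤ 1 →
  ∀ U a b q : k[X], U.coeff 0 = 1 → (∀ i, 1 ≤ i → v (U.coeff i) < v μ ^ (2 * i)) →
  X ^ (2 * e) * a ^ 2 - f * b ^ 2 = U * q → q.natDegree ≤ 2 * e → (a ≠ 0 ∨ b ≠ 0) →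
  a.coeff 0 ≠ 0 ∧ (∀ i, 1 ≤ i → v (a.coeff i) < v (a.coeff 0) * v μ ^ (2 * i)) ∧
    ∀ i, v (b.coeff i) < v (a.coeff 0) * v μ ^ (2 * i + 2 * (g - e) + 1)

/-- PL: extraction of an `ℓ`-th root. -/
def T_PL : Prop := ∀ (k : Type u) [Field k] (Γ₀ : Type u) [LinearOrderedCommGroupWithZero Γ₀]
  (v : Valuation k Γ₀) (g : ℕ) (f : k[X]), f.Monic → f.natDegree = 2 * g + 1 →
  (∀ i, v (f.coeff i) ≤ 1) → ∀ μ : k, μ ≠ 0 → v μ < 1 → ∀ ℓ j : ℕ, 1 ≤ ℓ → 1 ≤ j →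
  v μ < v (ℓ : k) → ∀ (U W a b : k[X]) (c : k), 1 ≤ U.natDegree → U.coeff 0 = 1 →
  (∀ i, 1 ≤ i → v (U.coeff i) < v μ ^ (2 * i)) → U ^ (ℓ * j) ∣ W ^ 2 - f → c ≠ 0 →
  a ^ 2 - f * b ^ 2 = C c * U ^ (ℓ * j) → U ^ (ℓ * j) ∣ a + b * W →
  ∃ (a' b' : k[X]) (c' : k), c' ≠ 0 ∧ a' ^ 2 - f * b' ^ 2 = C c' * U ^ j ∧ U ^ j ∣ a' + b' * W

/-- IDL: from ideals to polynomials. -/
def T_IDL : Prop := ∀ (k : Type u) [Field k] [CharZero k] (f U w : k[X]) (N : ℕ), U ≠ 0 → 1 ≤ N →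
  U ∣ w ^ 2 - f → IsCoprime U w → (II f U w ^ N).IsPrincipal →
  ∃ (W a b : k[X]) (c : k), c ≠ 0 ∧ U ∣ W - w ∧ U ^ N ∣ W ^ 2 - f ∧ U ^ N ∣ a + b * W ∧
    a ^ 2 - f * b ^ 2 = C c * U ^ N

/-- NTs: the kernel of reduction at a place above `2` has no torsion. -/
def T_NTs : Prop := ∀ (k : Type u) [Field k] [CharZero k] (Γ₀ : Type u)
  [LinearOrderedCommGroupWithZero Γ₀] (v : Valuation k Γ₀) (g : ℕ) (f : k[X]), v 2 < 1 →
  f.Monic → f.natDegree = 2 * g + 1 → ∀ ρ : k, ρ ≠ 0 → v ρ ≤ 1 →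
  (∀ i, i ≤ 2 * g → v (ρ ^ (2 * (2 * g + 1 - i)) * f.coeff i) ≤ 1) →
  ∀ (ι : Type u) [Fintype ι] [Nonempty ι] (x : ι → k), (∀ i, v ((4 * ρ) ^ 2)⁻¹ < v (x i)) →
  ∀ (w : k[X]) (N : ℕ), 1 ≤ N → (∏ i, (X - C (x i))) ∣ w ^ 2 - f →
  IsCoprime (∏ i, (X - C (x i))) w → (II f (∏ i, (X - C (x i))) w ^ N).IsPrincipal →
  ∃ (a b : k[X]) (c : k), c ≠ 0 ∧ a ^ 2 - f * b ^ 2 = C c * ∏ i, (X - C (x i))

/-! ## PHI: principal divisors are special -/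

def T_PHI : Prop := ∀ (k : Type u) [Field k] [IsAlgClosed k] (ι : Type u) [Fintype ι] [Nonempty ι]
  (g : ℕ) (f : k[X]), 1 ≤ g → f.natDegree = 2 * g + 1 →
  ∃ P : MvPolynomial ι k, P ≠ 0 ∧ ∀ x : ι → k,
    (∃ (a b : k[X]) (c : k), c ≠ 0 ∧ a ^ 2 - f * b ^ 2 = C c * ∏ i, (X - C (x i))) →
    MvPolynomial.eval x P = 0

/-! ## SEL: choice of the translate -/

def T_SEL : Prop := ∀ (M Ω : Type u) [Field M] [CharZero M] [Field Ω] (G : Type u) [Group G]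
  [Finite G] [MulSemiringAction G M] [FaithfulSMul G M] (ι : M →+* Ω) (Γ₀ : Type u)
  [LinearOrderedCommGroupWithZero Γ₀] (v : Valuation Ω Γ₀) (P : MvPolynomial G Ω) (b : M),
  v 2 < 1 → P ≠ 0 →
  ∃ S : Finset M, ∀ q : M, ∃ s ∈ S, MvPolynomial.eval (fun g : G => ι (g • (q + s))) P ≠ 0 ∧
    ∀ g : G, v (ι b) < v (ι (g • (q + s)))

/-! ## CL: the class group relation -/

open scoped TensorProduct in
def T_CL : Prop := ∀ (K Ω : Type u) [Field K] [Field Ω] [CharZero K] [CharZero Ω] (φ : K →+* Ω)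
  (f : K[X]) [IsDomain (HR K f)] [IsDomain (HR Ω (f.map φ))],
  FiniteDimensional ℚ (ℚ ⊗[ℤ] Additive (ClassGroup (HR K f))) →
  ∃ T : Finset K, ∀ (u w : K[X]), u ≠ 0 → u ∣ w ^ 2 - f → IsCoprime u w →
    ∀ τ : Ω ≃+* Ω, (∀ t ∈ T, τ (φ t) = φ t) → (∀ i, τ (φ (f.coeff i)) = φ (f.coeff i)) →
    (∀ i, τ (φ (u.coeff i)) = φ (u.coeff i)) → (∀ i, τ (φ (w.coeff i)) = - φ (w.coeff i)) →
    ∃ N : ℕ, 1 ≤ N ∧ (II (f.map φ) (u.map φ) (w.map φ) ^ N).IsPrincipal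

/-! ## PTS: the points given by the Hales-Jewett theorem -/

/-- the field `K = F_sep(σ)` -/
noncomputable abbrev KK (F : Type u) [Field F] {e : ℕ} (σ : Fin e → (SeparableClosure F ≃ₐ[F] SeparableClosure F)) :
    IntermediateField F (SeparableClosure F) :=
  IntermediateField.fixedField (Subgroup.closure (Set.range σ))

def T_PTS : Prop := ∀ (F : Type u) [Field F] [CharZero F] (e : ℕ)
  (σ : Fin e → (SeparableClosure F ≃ₐ[F] SeparableClosure F)) (f : (KK F σ)[X])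
  (T : Finset (KK F σ)), f.Monic → Odd f.natDegree →
  ∃ (M : Subfield (SeparableClosure F)) (G : Type u) (_ : Group G) (_ : Fintype G)
    (_ : MulSemiringAction G M), FaithfulSMul G M ∧
    (∀ t ∈ T, (t : SeparableClosure F) ∈ M) ∧
    (∀ i, ((f.coeff i : KK F σ) : SeparableClosure F) ∈ M) ∧
    ∀ S : Finset M, ∃ q : M, ∀ s ∈ S, Function.Injective (fun g : G => g • (q + s)) →
      ∃ (u w : (KK F σ)[X]) (τ : SeparableClosure F ≃+* SeparableClosure F),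
        u.map (algebraMap (KK F σ) (SeparableClosure F)) =
          ∏ g : G, (X - C ((g • (q + s) : M) : SeparableClosure F)) ∧
        u ∣ w ^ 2 - f ∧ IsCoprime u w ∧ (∀ x ∈ M, τ x = x) ∧
        (∀ i, τ (u.coeff i : KK F σ) = (u.coeff i : KK F σ)) ∧
        (∀ i, τ (w.coeff i : KK F σ) = - ((w.coeff i : KK F σ) : SeparableClosure F))

/-! ## the final theorem -/

open scoped TensorProduct in
def T_FIN : Prop := ∀ (F : Type u) [Field F] [CharZero F] (e : ℕ)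
  (σ : Fin e → (SeparableClosure F ≃ₐ[F] SeparableClosure F)) (f : (KK F σ)[X]),
  Odd f.natDegree → 3 ≤ f.natDegree →
  ¬ FiniteDimensional ℚ (ℚ ⊗[ℤ] Additive (CommRing.Pic (AdjoinRoot (X ^ 2 - C f))))

end Pool.Agent.H62.HE
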