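import Pool.Agent.H62.HE.PTSc

/-!
# PTS: the points given by the Hales-Jewett theorem
-/

open Polynomial

namespace Pool.Agent.H62.HE

universe u

namespace PTSm

/-- the square roots of the linear factors -/
lemma exists_roots {F Ω : Type u} [Field F] [Field Ω] [CharZero Ω] [Algebra F Ω] [IsAlgClosed Ω]
    (Γ : Subgroup (Ω ≃ₐ[F] Ω)) (M : Subfield Ω) (hM : ∀ γ ∈ Γ, ∀ x ∈ M, γ x ∈ M)
    (L : IntermediateField F Ω) (hfin : Finite (GG Γ M hM)) (hess : Algebra.EssFiniteType ℚ M)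
    (hML : ∀ x ∈ M, x ∈ L)
    (hcl : Finite (Lˣ ⧸ (powMonoidHom 2 : Lˣ →* Lˣ).range)) (Z : Finset M) :
    ∃ τ : Ω ≃+* Ω, (∀ x ∈ M, τ x = x) ∧ ∀ S : Finset M, ∃ q : M, ∀ s ∈ S, ∀ z ∈ Z,
      ∃ l : Ω, l ∈ L ∧ l ^ 2 = ((q + s - z : M) : Ω) ∧ l ≠ 0 ∧
        ∀ γ : Γ, τ ((γ : Ω ≃ₐ[F] Ω) l) = - (γ : Ω ≃ₐ[F] Ω) l := by
  classical
  have hcM : CharZero M := (algebraMap M Ω).charZero
  have hcL : CharZero L := (algebraMap L Ω).charZero
  obtain ⟨g0, hg0, ⟨k, hk⟩, hns⟩ := Pool.Agent.H23.exists_rat_pow_not_isSquare L 2 M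
  obtain ⟨τ, hτM, hτ⟩ := exists_tau M (g0 : M) hns
  obtain ⟨ψ, hψ⟩ := exists_psi M τ hτM
  refine ⟨τ, hτM, fun S => ?_⟩
  let ι : M →+* L :=
    { toFun := fun x => ⟨(x : Ω), hML _ x.2⟩
      map_one' := rfl
      map_mul' := fun _ _ => rfl
      map_zero' := rfl
      map_add' := fun _ _ => rfl }
  have hg0M : (g0 : M) ≠ 0 := by exact_mod_cast hg0
  let g1 : Mˣ := Units.mk0 (g0 : M) hg0M
  have hψ1 : ψ g1 = -1 := by
    obtain ⟨r, hr⟩ := IsAlgClosed.exists_pow_nat_eq ((g0 : M) : Ω) (n := 2) two_pos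
    have h1 := hτ r hr
    have h2 := hψ g1 r hr
    have hr0 : r ≠ 0 := by
      rintro rfl
      apply hg0M
      have h3 : ((g0 : M) : Ω) = 0 := by rw [← hr]; ring
      exact_mod_cast h3
    rcases Int.units_eq_one_or (ψ g1) with h | h
    · exfalso
      rw [h] at h2
      rw [h1] at h2
      simp at h2
      have h5 : (2 : Ω) * r = 0 := by linear_combination -h2
      rcases mul_eq_zero.mp h5 with h6 | h6
      · exact two_ne_zero h6
      · exact hr0 h6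
    · exact h
  let χ1 : Mˣ →* (Lˣ ⧸ (powMonoidHom 2 : Lˣ →* Lˣ).range) :=
    (QuotientGroup.mk' _).comp (Units.map (ι : M →* L))
  let χ2 : Mˣ →* (GG Γ M hM → ℤˣ) :=
    MonoidHom.pi fun g => ψ.comp (Units.map (MulSemiringAction.toRingHom (GG Γ M hM) M g : M →* M))
  have hχ1 : χ1 g1 = 1 := by
    change (QuotientGroup.mk ((Units.map (ι : M →* L)) g1) :
      Lˣ ⧸ (powMonoidHom 2 : Lˣ →* Lˣ).range) = 1
    rw [QuotientGroup.eq_one_iff]
    have hk0 : k ≠ 0 := by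
      intro h
      rw [h, zero_pow (by norm_num)] at hk
      exact hg0 (by exact_mod_cast hk.symm)
    refine ⟨Units.mk0 k hk0, ?_⟩
    ext
    simp [g1, hk]
  have hχ2 : ∀ g, χ2 g1 g = -1 := by
    intro g
    have h1 : (Units.map (MulSemiringAction.toRingHom (GG Γ M hM) M g : M →* M)) g1 = g1 := by
      ext
      simp [g1]
    change ψ ((Units.map (MulSemiringAction.toRingHom (GG Γ M hM) M g : M →* M)) g1) = -1
    rw [h1, hψ1]
  obtain ⟨q, hq⟩ := Pool.Agent.H23.exists_translate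
    (G := (Lˣ ⧸ (powMonoidHom 2 : Lˣ →* Lˣ).range) × (GG Γ M hM → ℤˣ)) (χ1.prod χ2)
    (Finset.image₂ (fun s z => s - z) S Z) g1
  refine ⟨q, fun s hs z hz => ?_⟩
  obtain ⟨x, hx, hχ⟩ := hq (s - z) (Finset.mem_image₂_of_mem hs hz)
  have h1 : χ1 x = χ1 g1 := congrArg Prod.fst hχ
  have h2 : χ2 x = χ2 g1 := congrArg Prod.snd hχ
  rw [hχ1] at h1
  change (QuotientGroup.mk ((Units.map (ι : M →* L)) x) :
    Lˣ ⧸ (powMonoidHom 2 : Lˣ →* Lˣ).range) = 1 at h1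
  rw [QuotientGroup.eq_one_iff] at h1
  obtain ⟨t, ht⟩ := h1
  have hxz : (x : M) = q + s - z := by rw [hx]; ring
  have hl2 : (((t : L) : Ω)) ^ 2 = ((x : M) : Ω) := by
    have h3 := congrArg (fun a : Lˣ => ((a : L) : Ω)) ht
    exact h3
  refine ⟨((t : L) : Ω), (t : L).2, by rw [hl2, hxz], ?_, ?_⟩
  · intro h
    apply t.ne_zero
    exact_mod_cast h
  · intro γ
    let g : GG Γ M hM := ⟨res Γ M hM γ, γ, rfl⟩
    have h3 : χ2 x g = -1 := by rw [h2, hχ2]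
    change ψ ((Units.map (MulSemiringAction.toRingHom (GG Γ M hM) M g : M →* M)) x) = -1 at h3
    have h4 := hψ ((Units.map (MulSemiringAction.toRingHom (GG Γ M hM) M g : M →* M)) x)
      ((γ : Ω ≃ₐ[F] Ω) (t : L)) (by
        rw [← map_pow, hl2]
        exact (smul_coe Γ M hM g γ rfl (x : M)).symm)
    rw [h4, h3]
    simp

end PTSm

open PTSm

theorem PTS : T_PTS.{u} := by
  classical
  intro F _ _ e σ f T hf hodd
  set Ω := SeparableClosure F with hΩ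
  set Γ : Subgroup (Ω ≃ₐ[F] Ω) := Subgroup.closure (Set.range σ) with hΓ
  set φ := algebraMap (KK F σ) Ω with hφ
  have hc0 : CharZero Ω :=
    charZero_of_injective_algebraMap (algebraMap F Ω).injective
  have hac : IsAlgClosed Ω := by
    have hsc : IsSepClosed (SeparableClosure F) := inferInstance
    exact IsSepClosed.isAlgClosed_of_perfectField _
  have hfg : Γ.FG := ⟨Finset.univ.image σ, by rw [Finset.coe_image, Finset.coe_univ, Set.image_univ]⟩
  have hfix : ∀ γ ∈ Γ, ∀ x : KK F σ, γ (x : Ω) = x := by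
    intro γ hγ x
    exact (IntermediateField.mem_fixedField_iff _ _).1 x.2 γ hγ
  have hfmap : ∀ γ ∈ Γ, (f.map φ).map (γ : Ω →+* Ω) = f.map φ := by
    intro γ hγ
    rw [Polynomial.map_map]
    congr 1
    exact RingHom.ext fun x => hfix γ hγ x
  have hfm : (f.map φ).Monic := hf.map φ
  set Z := (f.map φ).roots with hZ
  set A : Finset Ω := Z.toFinset ∪ (T.image (fun t : KK F σ => φ t) ∪
    (Finset.range (f.natDegree + 1)).image fun i => φ (f.coeff i)) with hA'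
  have hA : ∀ γ ∈ Γ, ∀ a ∈ A, γ a ∈ A := by
    intro γ hγ a ha
    rw [hA', Finset.mem_union, Finset.mem_union] at ha ⊢
    rcases ha with ha | ha | ha
    · left
      rw [Multiset.mem_toFinset, hZ, Polynomial.mem_roots hfm.ne_zero, IsRoot.def] at ha ⊢
      have h1 := Polynomial.eval_map_apply (γ : Ω →+* Ω) (p := f.map φ) a
      rw [hfmap γ hγ, ha, map_zero] at h1
      exact h1
    · right; left
      obtain ⟨t, ht, rfl⟩ := Finset.mem_image.mp ha
      have h1 : γ (φ t) = φ t := hfix γ hγ t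
      rw [h1]
      exact ha
    · right; right
      obtain ⟨i, hi, rfl⟩ := Finset.mem_image.mp ha
      have h1 : γ (φ (f.coeff i)) = φ (f.coeff i) := hfix γ hγ _
      rw [h1]
      exact ha
  obtain ⟨M, hM, L, hAM, hfin, hess, hML, hL, hcl⟩ := exists_fields Γ hfg A hA
  have hZM : ∀ z ∈ Z, z ∈ M := fun z hz => hAM z (by
    rw [hA', Finset.mem_union]; left; rwa [Multiset.mem_toFinset])
  let Zm : Finset M := Z.toFinset.attach.image fun z => ⟨z.1, hZM z.1 (Multiset.mem_toFinset.mp z.2)⟩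
  obtain ⟨τ, hτM, hτ⟩ := exists_roots Γ M hM L hfin hess hML hcl Zm
  have hft : Fintype (GG Γ M hM) := Fintype.ofFinite _
  refine ⟨M, GG Γ M hM, inferInstance, hft, inferInstance, faithful Γ M hM, ?_, ?_, ?_⟩
  · intro t ht
    exact hAM _ (by
      rw [hA', Finset.mem_union, Finset.mem_union]
      right; left
      exact Finset.mem_image.mpr ⟨t, ht, rfl⟩)
  · intro i
    by_cases hi : i ≤ f.natDegree
    · exact hAM _ (by
        rw [hA', Finset.mem_union, Finset.mem_union]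
        right; right
        exact Finset.mem_image.mpr ⟨i, Finset.mem_range.mpr (by omega), rfl⟩)
    · rw [Polynomial.coeff_eq_zero_of_natDegree_lt (by omega)]
      exact zero_mem M
  intro S
  obtain ⟨q, hq⟩ := hτ S
  refine ⟨q, fun s hs hinj => ?_⟩
  have hl : ∀ z : Ω, ∃ l : Ω, z ∈ Z → l ∈ L ∧ l ^ 2 = ((q + s : M) : Ω) - z ∧ l ≠ 0 ∧
      ∀ γ : Γ, τ ((γ : Ω ≃ₐ[F] Ω) l) = - (γ : Ω ≃ₐ[F] Ω) l := by
    intro z
    by_cases hz : z ∈ Z
    · obtain ⟨l, h1, h2, h3, h4⟩ := hq s hs ⟨z, hZM z hz⟩ (Finset.mem_image.mpr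
        ⟨⟨z, Multiset.mem_toFinset.mpr hz⟩, Finset.mem_attach _ _, rfl⟩)
      exact ⟨l, fun _ => ⟨h1, h2, h3, h4⟩⟩
    · exact ⟨0, fun h => absurd h hz⟩
  choose l hl using hl
  set y0 : Ω := (Z.map l).prod with hy0
  have hsplit : (f.map φ).Splits := IsAlgClosed.splits _
  have hprod : f.map φ = (Z.map fun a => X - C a).prod := hsplit.eq_prod_roots_of_monic hfm
  have hcard : Multiset.card Z = f.natDegree := by
    rw [hZ, ← hsplit.natDegree_eq_card_roots, natDegree_map]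
  have hmapγ : ∀ (r : Ω →+* Ω), r y0 = (Z.map fun z => r (l z)).prod := by
    intro r
    rw [hy0, map_multiset_prod, Multiset.map_map]
    rfl
  have A1 : ∀ γ : Γ, res Γ M hM γ = 1 → (γ : Ω ≃ₐ[F] Ω) y0 = y0 := by
    intro γ hγ
    have h6 := hmapγ (γ : Ω ≃ₐ[F] Ω)
    have h7 : (Z.map fun z => ((γ : Ω ≃ₐ[F] Ω) : Ω →+* Ω) (l z)) = Z.map l := by
      refine Multiset.map_congr rfl fun z hz => ?_
      exact hL _ (hl z hz).1 γ hγ
    rw [h7] at h6
    exact h6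
  have A2 : y0 ^ 2 = (f.map φ).eval ((q + s : M) : Ω) := by
    rw [hy0, ← Multiset.prod_map_pow]
    rw [hprod, Polynomial.eval_multiset_prod, Multiset.map_map]
    congr 1
    refine Multiset.map_congr rfl fun z hz => ?_
    rw [(hl z hz).2.1]
    simp
  have A3 : y0 ≠ 0 := by
    rw [hy0]
    refine Multiset.prod_ne_zero ?_
    intro h0
    obtain ⟨z, hz, hz0⟩ := Multiset.mem_map.mp h0
    exact (hl z hz).2.2.1 hz0
  have A4 : ∀ γ : Γ, τ ((γ : Ω ≃ₐ[F] Ω) y0) = - (γ : Ω ≃ₐ[F] Ω) y0 := by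
    intro γ
    have h6 := hmapγ (γ : Ω ≃ₐ[F] Ω)
    have h7 := hmapγ ((τ : Ω →+* Ω).comp (γ : Ω ≃ₐ[F] Ω))
    have h8 : (Z.map fun z => ((τ : Ω →+* Ω).comp ((γ : Ω ≃ₐ[F] Ω) : Ω →+* Ω)) (l z)) =
        (Z.map fun z => ((γ : Ω ≃ₐ[F] Ω) : Ω →+* Ω) (l z)).map Neg.neg := by
      rw [Multiset.map_map]
      refine Multiset.map_congr rfl fun z hz => ?_
      exact (hl z hz).2.2.2 γ
    rw [h8, Multiset.prod_map_neg, ← h6, Multiset.card_map, hcard, hodd.neg_one_pow] at h7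
    have h9 : τ ((γ : Ω ≃ₐ[F] Ω) y0) = -1 * ((γ : Ω ≃ₐ[F] Ω) y0) := h7
    rw [h9]; ring
  obtain ⟨u, w, h1, h2, h3, h4, h5⟩ := interp Γ M hM f (q + s) y0 A1 A2 A3 hinj τ hτM A4
  exact ⟨u, w, τ, h1, h2, h3, hτM, h4, h5⟩

end Pool.Agent.H62.HE
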