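import Pool.Agent.H62.HE.FIN
import Pool.Agent.H41.HE.EX
import Pool.Agent.H41.HE.NL
import Pool.Agent.H91.HE.PL
import Pool.Agent.H14.HE.IDL
import Pool.Agent.H14.HE.NTs
import Pool.Agent.H21.HE.CL
import Pool.Agent.H42.HE.SEL
import Pool.Agent.H7.HE.PHI
import Pool.Agent.H62.HE.PTS

/-!
# Assembly
-/

namespace Pool.Agent.H62.HE

universe u

theorem final (hPTS : T_PTS.{u}) : T_FIN.{u} :=
  FIN CL (Pool.Agent.H14.HE.nts (Pool.Agent.H91.HE.PL Pool.Agent.H41.HE.ex Pool.Agent.H41.HE.nl)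
    Pool.Agent.H14.HE.idl) Pool.Agent.H7.HE.PHI Pool.Agent.H42.HE.sel hPTS

theorem main : T_FIN.{u} := final PTS

end Pool.Agent.H62.HE
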