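import Pool.Agent.H62.HE.Defs
import Pool.Agent.H23.Val

/-!
# FIN: assembly
-/

open Polynomial
open scoped TensorProduct

namespace Pool.Agent.H62.HE

universe u

namespace FINm

/-- a polynomial of odd degree is not a square times a non-zero square -/
lemma norm_ne {k : Type u} [Field k] {f : k[X]} (hodd : Odd f.natDegree) {a b : k[X]}
    (h : a ^ 2 = f * b ^ 2) : a = 0 ∧ b = 0 := by
  have hf0 : f ≠ 0 := by
    rintro rfl
    simp at hodd
  by_cases hb : b = 0
  · subst hb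
    have : a ^ 2 = 0 := by rw [h]; ring
    exact ⟨by simpa using this, rfl⟩
  · exfalso
    have ha : a ≠ 0 := by
      rintro rfl
      have : f * b ^ 2 = 0 := by rw [← h]; ring
      rcases mul_eq_zero.mp this with h1 | h1
      · exact hf0 h1
      · exact hb (by simpa using h1)
    have h1 := congrArg natDegree h
    rw [natDegree_mul hf0 (pow_ne_zero _ hb), natDegree_pow, natDegree_pow] at h1
    obtain ⟨m, hm⟩ := hodd
    omega

lemma isDomain_HR {k : Type u} [Field k] {f : k[X]} (hodd : Odd f.natDegree) :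
    IsDomain (HR k f) := by
  have hnorm : ∀ z : HR k f, QuadraticAlgebra.norm z = z.re ^ 2 - f * z.im ^ 2 := by
    intro z
    rw [QuadraticAlgebra.norm_def]
    ring
  have h0 : ∀ z : HR k f, QuadraticAlgebra.norm z = 0 → z = 0 := by
    intro z hz
    rw [hnorm] at hz
    obtain ⟨h1, h2⟩ := norm_ne hodd (sub_eq_zero.mp hz)
    exact QuadraticAlgebra.ext h1 h2
  have : NoZeroDivisors (HR k f) := by
    refine ⟨fun {x y} hxy => ?_⟩
    have h1 : QuadraticAlgebra.norm x * QuadraticAlgebra.norm y = 0 := by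
      rw [← map_mul, hxy, QuadraticAlgebra.norm_zero]
    rcases mul_eq_zero.mp h1 with h | h
    · exact Or.inl (h0 x h)
    · exact Or.inr (h0 y h)
  exact NoZeroDivisors.to_isDomain _

/-- a common denominator for a valuation -/
lemma exists_small {Ω : Type u} [Field Ω] {Γ₀ : Type u} [LinearOrderedCommGroupWithZero Γ₀]
    (v : Valuation Ω Γ₀) (M : Subfield Ω) (s : Finset M) :
    ∃ ρ : M, ρ ≠ 0 ∧ v (ρ : Ω) ≤ 1 ∧ ∀ c ∈ s, v (ρ : Ω) * v (c : Ω) ≤ 1 := by
  classical
  induction s using Finset.induction_on with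
  | empty => exact ⟨1, one_ne_zero, by simp, by simp⟩
  | insert a s ha ih =>
    obtain ⟨ρ, h0, h1, h2⟩ := ih
    by_cases hle : v (ρ : Ω) * v (a : Ω) ≤ 1
    · refine ⟨ρ, h0, h1, fun c hc => ?_⟩
      rcases Finset.mem_insert.mp hc with rfl | hc
      · exact hle
      · exact h2 c hc
    · have ha0 : a ≠ 0 := by
        rintro rfl
        simp at hle
      have hva : v (a : Ω) ≠ 0 := by
        rw [Valuation.ne_zero_iff]
        exact_mod_cast ha0
      push Not at hle
      have hlt : v ((a⁻¹ : M) : Ω) < v (ρ : Ω) := by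
        have : ((a⁻¹ : M) : Ω) = (a : Ω)⁻¹ := by push_cast; rfl
        rw [this, map_inv₀]
        exact (inv_lt_iff_one_lt_mul₀ (zero_lt_iff.mpr hva)).2 hle
      refine ⟨a⁻¹, inv_ne_zero ha0, hlt.le.trans h1, fun c hc => ?_⟩
      rcases Finset.mem_insert.mp hc with rfl | hc
      · have : ((c⁻¹ : M) : Ω) = (c : Ω)⁻¹ := by push_cast; rfl
        rw [this, map_inv₀, inv_mul_cancel₀ hva]
      · exact (mul_le_mul_left (a := v (c : Ω)) hlt.le).trans (h2 c hc)

end FINm

open FINm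

/-- the output of the module PTS for a general embedding `φ : K → Ω` -/
def PtsFor {K Ω : Type u} [Field K] [Field Ω] (φ : K →+* Ω) (f : K[X]) : Prop :=
  ∀ T : Finset K, ∃ (M : Subfield Ω) (G : Type u) (_ : Group G) (_ : Fintype G)
    (_ : MulSemiringAction G M), FaithfulSMul G M ∧
    (∀ t ∈ T, φ t ∈ M) ∧ (∀ i, φ (f.coeff i) ∈ M) ∧
    ∀ S : Finset M, ∃ q : M, ∀ s ∈ S, Function.Injective (fun g : G => g • (q + s)) →
      ∃ (u w : K[X]) (τ : Ω ≃+* Ω),
        u.map φ = ∏ g : G, (X - C ((g • (q + s) : M) : Ω)) ∧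
        u ∣ w ^ 2 - f ∧ IsCoprime u w ∧ (∀ x ∈ M, τ x = x) ∧
        (∀ i, τ (φ (u.coeff i)) = φ (u.coeff i)) ∧ (∀ i, τ (φ (w.coeff i)) = - φ (w.coeff i))

theorem core (hCL : T_CL.{u}) (hNT : T_NTs.{u}) (hPHI : T_PHI.{u}) (hSEL : T_SEL.{u})
    (K Ω : Type u) [Field K] [Field Ω] [CharZero K] [CharZero Ω] [IsAlgClosed Ω] (φ : K →+* Ω)
    (f : K[X]) (hf : f.Monic) (hodd : Odd f.natDegree) (h3 : 3 ≤ f.natDegree)
    [IsDomain (HR K f)] (hPTS : PtsFor φ f) :
    ¬ FiniteDimensional ℚ (ℚ ⊗[ℤ] Additive (ClassGroup (HR K f))) := by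
  classical
  intro hfin
  have hodd' : Odd (f.map φ).natDegree := by rwa [natDegree_map]
  have : IsDomain (HR Ω (f.map φ)) := isDomain_HR hodd'
  obtain ⟨T, hT⟩ := hCL K Ω φ f hfin
  obtain ⟨M, G, _, _, _, hfaith, hTM, hfM, hpts⟩ := hPTS T
  obtain ⟨V, hV2, hV20⟩ := Pool.Agent.H23.exists_valuation_two Ω
  obtain ⟨g, hg⟩ := hodd
  have hg1 : 1 ≤ g := by omega
  obtain ⟨P0, hP0, hP⟩ := hPHI Ω G g (f.map φ) hg1 (by rw [natDegree_map, hg])
  -- the scaling parameter
  obtain ⟨ρ, hρ0, hρ1, hρ⟩ := exists_small V.valuation M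
    ((Finset.range (2 * g + 1)).image fun i => (⟨φ (f.coeff i), hfM i⟩ : M))
  have hρf : ∀ i, i ≤ 2 * g →
      V.valuation ((ρ : Ω) ^ (2 * (2 * g + 1 - i)) * (f.map φ).coeff i) ≤ 1 := by
    intro i hi
    have h1 := hρ ⟨φ (f.coeff i), hfM i⟩ (Finset.mem_image.mpr ⟨i, Finset.mem_range.mpr (by omega), rfl⟩)
    rw [coeff_map, map_mul, map_pow]
    refine le_trans ?_ h1
    refine mul_le_mul_left ?_ _
    have h2 : V.valuation (ρ : Ω) ^ (2 * (2 * g + 1 - i)) ≤ V.valuation (ρ : Ω) ^ 1 :=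
      pow_le_pow_right_of_le_one' hρ1 (by omega)
    simpa using h2
  -- the polynomial to be avoided
  set Q : MvPolynomial G Ω := ∏ p ∈ (Finset.univ : Finset (G × G)).filter (fun p => p.1 ≠ p.2),
    (MvPolynomial.X p.1 - MvPolynomial.X p.2) with hQ
  have hQ0 : Q ≠ 0 := by
    rw [hQ, Finset.prod_ne_zero_iff]
    intro p hp h0
    rw [Finset.mem_filter] at hp
    exact hp.2 (MvPolynomial.X_injective (sub_eq_zero.mp h0))
  have hPQ : P0 * Q ≠ 0 := mul_ne_zero hP0 hQ0
  obtain ⟨S, hS⟩ := hSEL M Ω G M.subtype V.ValueGroup V.valuation (P0 * Q)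
    ((4 * ρ) ^ 2)⁻¹ hV2 hPQ
  obtain ⟨q, hq⟩ := hpts S
  obtain ⟨s, hsS, hsP, hsv⟩ := hS q
  rw [map_mul] at hsP
  have hinj : Function.Injective (fun g : G => g • (q + s)) := by
    intro a b hab
    by_contra hne
    apply right_ne_zero_of_mul hsP
    rw [hQ, map_prod]
    refine Finset.prod_eq_zero (i := (a, b)) (Finset.mem_filter.mpr ⟨Finset.mem_univ _, hne⟩) ?_
    simp only [map_sub, MvPolynomial.eval_X]
    rw [sub_eq_zero]
    exact congrArg M.subtype hab
  obtain ⟨u, w, τ, hu, huw, hcop, hτM, hτu, hτw⟩ := hq s hsS hinj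
  have hu0 : u ≠ 0 := by
    rintro rfl
    rw [Polynomial.map_zero] at hu
    exact (Finset.prod_ne_zero_iff.mpr fun g _ => X_sub_C_ne_zero _) hu.symm
  obtain ⟨N, hN, hprin⟩ := hT u w hu0 huw hcop τ (fun t ht => hτM _ (hTM t ht))
    (fun i => hτM _ (hfM i)) hτu hτw
  have hmon : (f.map φ).Monic := hf.map φ
  have hdvd : (∏ g : G, (X - C ((g • (q + s) : M) : Ω))) ∣ (w.map φ) ^ 2 - f.map φ := by
    rw [← hu, ← Polynomial.map_pow, ← Polynomial.map_sub]
    exact Polynomial.map_dvd φ huw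
  have hcop' : IsCoprime (∏ g : G, (X - C ((g • (q + s) : M) : Ω))) (w.map φ) := by
    rw [← hu]
    exact hcop.map (Polynomial.mapRingHom φ)
  rw [hu] at hprin
  have h16 : ∀ a : G, V.valuation ((4 * (ρ : Ω)) ^ 2)⁻¹ <
      V.valuation ((a • (q + s) : M) : Ω) := by
    intro a
    have h1 := hsv a
    have h4 : M.subtype (((4 * ρ) ^ 2)⁻¹) = ((4 * (ρ : Ω)) ^ 2)⁻¹ := by
      rw [map_inv₀, map_pow, map_mul, map_ofNat]
      rfl
    rw [h4] at h1
    exact h1
  obtain ⟨a, b, c, hc, habc⟩ := hNT Ω V.ValueGroup V.valuation g (f.map φ) hV2 hmon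
    (by rw [natDegree_map, hg]) (ρ : Ω) (by exact_mod_cast hρ0) hρ1 hρf G
    (fun g => ((g • (q + s) : M) : Ω)) h16 (w.map φ) N hN hdvd hcop' hprin
  exact left_ne_zero_of_mul hsP (hP _ ⟨a, b, c, hc, habc⟩)

section Transport

variable {K : Type u} [Field K]

/-- the monic normalisation of `f` -/
noncomputable def nrm (f : K[X]) (g : ℕ) : K[X] :=
  C (f.leadingCoeff ^ (2 * g)) * f.comp (C f.leadingCoeff⁻¹ * X)

lemma nrm_natDegree {f : K[X]} {g : ℕ} (hf : f.natDegree = 2 * g + 1) :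
    (nrm f g).natDegree = 2 * g + 1 := by
  have hf0 : f ≠ 0 := by rintro rfl; simp at hf
  have hl : f.leadingCoeff ≠ 0 := leadingCoeff_ne_zero.mpr hf0
  rw [nrm, natDegree_C_mul (pow_ne_zero _ hl), natDegree_comp, natDegree_C_mul_X _ (inv_ne_zero hl),
    mul_one, hf]

lemma nrm_monic {f : K[X]} {g : ℕ} (hf : f.natDegree = 2 * g + 1) : (nrm f g).Monic := by
  have hf0 : f ≠ 0 := by rintro rfl; simp at hf
  have hl : f.leadingCoeff ≠ 0 := leadingCoeff_ne_zero.mpr hf0
  have hq : (C f.leadingCoeff⁻¹ * X : K[X]).natDegree ≠ 0 := by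
    rw [natDegree_C_mul_X _ (inv_ne_zero hl)]; exact one_ne_zero
  rw [Monic, nrm, leadingCoeff_mul, leadingCoeff_C, leadingCoeff_comp hq, leadingCoeff_mul,
    leadingCoeff_C, leadingCoeff_X, mul_one, hf, inv_pow, pow_succ, mul_inv, mul_comm,
    mul_assoc, ← mul_assoc]
  have h2 : f.leadingCoeff ^ (2 * g) ≠ 0 := pow_ne_zero _ hl
  field_simp

/-- the ring hom `p(x) ↦ p(X / c)` -/
noncomputable def al (f : K[X]) (g : ℕ) : K[X] →+* HR K (nrm f g) :=
  (algebraMap K[X] (HR K (nrm f g))).comp (compRingHom (C f.leadingCoeff⁻¹ * X))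

lemma al_apply (f : K[X]) (g : ℕ) (p : K[X]) :
    al f g p = ⟨p.comp (C f.leadingCoeff⁻¹ * X), 0⟩ := rfl

/-- the image of `y` -/
noncomputable def yy (f : K[X]) (g : ℕ) : HR K (nrm f g) := ⟨0, C (f.leadingCoeff⁻¹ ^ g)⟩

lemma eval_yy {f : K[X]} {g : ℕ} (hf : f.natDegree = 2 * g + 1) :
    (X ^ 2 - C f : K[X][X]).eval₂ (al f g) (yy f g) = 0 := by
  have hf0 : f ≠ 0 := by rintro rfl; simp at hf
  have hl : f.leadingCoeff ≠ 0 := leadingCoeff_ne_zero.mpr hf0
  rw [eval₂_sub, eval₂_pow, eval₂_X, eval₂_C, al_apply, sub_eq_zero, yy, pow_two]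
  have h1 : (C (f.leadingCoeff⁻¹ ^ g) * C (f.leadingCoeff⁻¹ ^ g) : K[X]) *
      C (f.leadingCoeff ^ (2 * g)) = 1 := by
    have h2 : f.leadingCoeff ^ g ≠ 0 := pow_ne_zero _ hl
    rw [← C_mul, ← C_mul, ← C_1]
    congr 1
    rw [two_mul, pow_add, inv_pow]
    field_simp
  apply QuadraticAlgebra.ext
  · rw [QuadraticAlgebra.re_mul]
    change (0 : K[X]) * 0 + nrm f g * C (f.leadingCoeff⁻¹ ^ g) * C (f.leadingCoeff⁻¹ ^ g) =
      f.comp (C f.leadingCoeff⁻¹ * X)
    rw [nrm]
    linear_combination (f.comp (C f.leadingCoeff⁻¹ * X)) * h1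
  · simp [QuadraticAlgebra.im_mul]

/-- the isomorphism of rings -/
noncomputable def fwd {f : K[X]} {g : ℕ} (hf : f.natDegree = 2 * g + 1) :
    AdjoinRoot (X ^ 2 - C f : K[X][X]) →+* HR K (nrm f g) :=
  AdjoinRoot.lift (al f g) (yy f g) (eval_yy hf)

lemma fwd_bijective {f : K[X]} {g : ℕ} (hf : f.natDegree = 2 * g + 1) :
    Function.Bijective (fwd hf) := by
  have hf0 : f ≠ 0 := by rintro rfl; simp at hf
  have hl : f.leadingCoeff ≠ 0 := leadingCoeff_ne_zero.mpr hf0
  have hmon : (X ^ 2 - C f : K[X][X]).Monic := monic_X_pow_sub_C f two_ne_zero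
  have hcompinj : ∀ p : K[X], p.comp (C f.leadingCoeff⁻¹ * X) = 0 → p = 0 := by
    intro p hp
    have h1 := congrArg (fun q => q.comp (C f.leadingCoeff * X)) hp
    simp only [comp_assoc, zero_comp, mul_comp, C_comp, X_comp] at h1
    rw [← mul_assoc, ← C_mul, inv_mul_cancel₀ hl, C_1, one_mul, comp_X] at h1
    exact h1
  have hrep : ∀ z : AdjoinRoot (X ^ 2 - C f : K[X][X]), ∃ a b : K[X],
      z = AdjoinRoot.of _ a + AdjoinRoot.of _ b * AdjoinRoot.root _ := by
    intro z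
    obtain ⟨p, rfl⟩ := AdjoinRoot.mk_surjective z
    have h1 := modByMonic_add_div p (X ^ 2 - C f : K[X][X])
    have hdeg : (p %ₘ (X ^ 2 - C f)).natDegree < 2 := by
      have h2 := natDegree_modByMonic_lt p hmon (by
        intro h
        have := congrArg natDegree h
        rw [natDegree_X_pow_sub_C, natDegree_one] at this
        exact two_ne_zero this)
      rwa [natDegree_X_pow_sub_C] at h2
    refine ⟨(p %ₘ (X ^ 2 - C f)).coeff 0, (p %ₘ (X ^ 2 - C f)).coeff 1, ?_⟩
    have h3 : p %ₘ (X ^ 2 - C f) = C ((p %ₘ (X ^ 2 - C f)).coeff 0) +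
        C ((p %ₘ (X ^ 2 - C f)).coeff 1) * X := by
      conv_lhs => rw [as_sum_range' (p %ₘ (X ^ 2 - C f)) 2 hdeg]
      simp [Finset.sum_range_succ, ← C_mul_X_pow_eq_monomial]
    conv_lhs => rw [← h1, h3]
    rw [map_add, map_mul, AdjoinRoot.mk_self, zero_mul, add_zero, map_add, map_mul]
    rfl
  constructor
  · rw [injective_iff_map_eq_zero]
    intro z hz
    obtain ⟨a, b, rfl⟩ := hrep z
    rw [map_add, map_mul] at hz
    simp only [fwd, AdjoinRoot.lift_of, AdjoinRoot.lift_root] at hz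
    rw [al_apply, al_apply, yy] at hz
    have h1 := congrArg QuadraticAlgebra.re hz
    have h2 := congrArg QuadraticAlgebra.im hz
    simp at h1 h2
    rw [hcompinj a h1]
    have h3 : b = 0 := by
      apply hcompinj
      rcases h2 with h2 | h2
      · exact h2
      · exact absurd h2.1 hf0
    rw [h3]; simp
  · intro z
    refine ⟨AdjoinRoot.of _ (z.re.comp (C f.leadingCoeff * X)) +
      AdjoinRoot.of _ (C (f.leadingCoeff ^ g) * z.im.comp (C f.leadingCoeff * X)) *
        AdjoinRoot.root _, ?_⟩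
    rw [map_add, map_mul]
    simp only [fwd, AdjoinRoot.lift_of, AdjoinRoot.lift_root]
    rw [al_apply, al_apply, yy]
    have h5 : ∀ p : K[X], (p.comp (C f.leadingCoeff * X)).comp (C f.leadingCoeff⁻¹ * X) = p := by
      intro p
      rw [comp_assoc, mul_comp, C_comp, X_comp, ← mul_assoc, ← C_mul, mul_inv_cancel₀ hl, C_1,
        one_mul, comp_X]
    apply QuadraticAlgebra.ext
    · simp [h5]
    · simp only [QuadraticAlgebra.im_add, QuadraticAlgebra.im_mul, mul_comp, C_comp, h5]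
      have h1 : (C (f.leadingCoeff ^ g) : K[X]) * C (f.leadingCoeff⁻¹ ^ g) = 1 := by
        rw [← C_mul, ← C_1]
        congr 1
        rw [← mul_pow, mul_inv_cancel₀ hl, one_pow]
      linear_combination z.im * h1

end Transport

theorem finDim_iff {A B : Type u} [CommGroup A] [CommGroup B] (e : A ≃* B)
    (h : FiniteDimensional ℚ (ℚ ⊗[ℤ] Additive A)) :
    FiniteDimensional ℚ (ℚ ⊗[ℤ] Additive B) := by
  have e1 : Additive A ≃ₗ[ℤ] Additive B := (MulEquiv.toAdditive e).toIntLinearEquiv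
  exact Module.Finite.equiv (e1.baseChange ℤ ℚ _ _)

theorem FIN (hCL : T_CL.{u}) (hNT : T_NTs.{u}) (hPHI : T_PHI.{u}) (hSEL : T_SEL.{u})
    (hPTS : T_PTS.{u}) : T_FIN.{u} := by
  intro F _ _ e σ f hodd h3 hfin
  obtain ⟨g, hg⟩ := hodd
  have hdeg := nrm_natDegree hg
  have hmon := nrm_monic hg
  have hodd' : Odd (nrm f g).natDegree := ⟨g, hdeg⟩
  have hD : IsDomain (HR (KK F σ) (nrm f g)) := isDomain_HR hodd'
  have hc0 : CharZero (SeparableClosure F) :=
    charZero_of_injective_algebraMap (algebraMap F (SeparableClosure F)).injective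
  have hcK : CharZero (KK F σ) :=
    charZero_of_injective_algebraMap (algebraMap F (KK F σ)).injective
  have hac : IsAlgClosed (SeparableClosure F) := by
    have hsc : IsSepClosed (SeparableClosure F) := inferInstance
    exact IsSepClosed.isAlgClosed_of_perfectField _
  have hP : PtsFor (algebraMap (KK F σ) (SeparableClosure F)) (nrm f g) := by
    intro T
    exact hPTS F e σ (nrm f g) T hmon hodd'
  refine core hCL hNT hPHI hSEL (KK F σ) (SeparableClosure F)
    (algebraMap (KK F σ) (SeparableClosure F)) (nrm f g) hmon hodd' (by omega) hP ?_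
  have e1 : CommRing.Pic (AdjoinRoot (X ^ 2 - C f)) ≃* CommRing.Pic (HR (KK F σ) (nrm f g)) := by
    let φ := RingEquiv.ofBijective (fwd hg) (fwd_bijective hg)
    refine
      { toFun := CommRing.Pic.mapRingHom φ.toRingHom
        invFun := CommRing.Pic.mapRingHom φ.symm.toRingHom
        left_inv := ?_
        right_inv := ?_
        map_mul' := fun _ _ => map_mul _ _ _ }
    · intro x
      rw [CommRing.Pic.mapRingHom_mapRingHom]
      have : φ.symm.toRingHom.comp φ.toRingHom = RingHom.id _ := by ext <;> simp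
      rw [this, CommRing.Pic.mapRingHom_id_apply]
    · intro x
      rw [CommRing.Pic.mapRingHom_mapRingHom]
      have : φ.toRingHom.comp φ.symm.toRingHom = RingHom.id _ := by
        apply RingHom.ext; intro x; simp
      rw [this, CommRing.Pic.mapRingHom_id_apply]
  exact finDim_iff (e1.trans (ClassGroup.equivPic _).symm) hfin

end Pool.Agent.H62.HE
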