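import Pool.Agent.H62.HE.PTSb

/-!
# PTS, part c: interpolation and descent
-/

open Polynomial

namespace Pool.Agent.H62.HE

universe u

namespace PTSm

section Interp

variable {F Ω : Type u} [Field F] [Field Ω] [Algebra F Ω] (Γ : Subgroup (Ω ≃ₐ[F] Ω))

lemma exists_descent (p : Polynomial Ω) (hp : ∀ γ ∈ Γ, p.map (γ : Ω →+* Ω) = p) :
    ∃ q : (IntermediateField.fixedField Γ)[X],
      q.map (algebraMap (IntermediateField.fixedField Γ) Ω) = p := by
  rw [← Polynomial.mem_lifts, Polynomial.lifts_iff_coeff_lifts]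
  intro n
  refine ⟨⟨p.coeff n, ?_⟩, rfl⟩
  rw [IntermediateField.mem_fixedField_iff]
  intro γ hγ
  have h1 := congrArg (fun r => r.coeff n) (hp γ hγ)
  simpa [coeff_map] using h1

variable (M : Subfield Ω) (hM : ∀ γ ∈ Γ, ∀ x ∈ M, γ x ∈ M)

lemma smul_coe (g : GG Γ M hM) (γ : Γ) (h : res Γ M hM γ = g) (x : M) :
    ((g • x : M) : Ω) = (γ : Ω ≃ₐ[F] Ω) x := by
  have h1 : g • x = (g : RingAut M) x := rfl
  rw [h1, ← h]
  rfl

lemma faithful : FaithfulSMul (GG Γ M hM) M := by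
  refine ⟨fun {g g'} h => ?_⟩
  apply Subtype.ext
  ext x
  exact congrArg Subtype.val (h x)

lemma interp [Fintype (GG Γ M hM)] (f : (IntermediateField.fixedField Γ)[X]) (x0 : M) (y0 : Ω)
    (hy0 : ∀ γ : Γ, res Γ M hM γ = 1 → (γ : Ω ≃ₐ[F] Ω) y0 = y0)
    (hsq : y0 ^ 2 = (f.map (algebraMap (IntermediateField.fixedField Γ) Ω)).eval (x0 : Ω))
    (hne : y0 ≠ 0) (hinj : Function.Injective (fun g : GG Γ M hM => g • x0))
    (τ : Ω ≃+* Ω) (hτM : ∀ x ∈ M, τ x = x)
    (hτy : ∀ γ : Γ, τ ((γ : Ω ≃ₐ[F] Ω) y0) = - (γ : Ω ≃ₐ[F] Ω) y0) :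
    ∃ u w : (IntermediateField.fixedField Γ)[X],
      u.map (algebraMap (IntermediateField.fixedField Γ) Ω) =
        ∏ g : GG Γ M hM, (X - C ((g • x0 : M) : Ω)) ∧
      u ∣ w ^ 2 - f ∧ IsCoprime u w ∧
      (∀ i, τ (u.coeff i : IntermediateField.fixedField Γ) =
        (u.coeff i : IntermediateField.fixedField Γ)) ∧
      (∀ i, τ (w.coeff i : IntermediateField.fixedField Γ) =
        - ((w.coeff i : IntermediateField.fixedField Γ) : Ω)) := by
  classical
  set φ := algebraMap (IntermediateField.fixedField Γ) Ω with hφ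
  have hfix : ∀ γ ∈ Γ, ∀ x : IntermediateField.fixedField Γ, γ (x : Ω) = x := by
    intro γ hγ x
    exact (IntermediateField.mem_fixedField_iff _ _).1 x.2 γ hγ
  have hfmap : ∀ γ ∈ Γ, (f.map φ).map (γ : Ω →+* Ω) = f.map φ := by
    intro γ hγ
    rw [Polynomial.map_map]
    congr 1
    ext x
    exact hfix γ hγ x
  -- the values
  choose c hc using fun g : GG Γ M hM => g.2
  set v : GG Γ M hM → Ω := fun g => ((g • x0 : M) : Ω) with hv
  set y : GG Γ M hM → Ω := fun g => ((c g : Γ) : Ω ≃ₐ[F] Ω) y0 with hy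
  have hvc : ∀ g, v g = ((c g : Γ) : Ω ≃ₐ[F] Ω) x0 := fun g => smul_coe Γ M hM g (c g) (hc g) x0
  have hvinj : Function.Injective v := fun a b hab => hinj (Subtype.ext hab)
  let bar : Γ → GG Γ M hM := fun γ => ⟨res Γ M hM γ, γ, rfl⟩
  have hyγ : ∀ (γ : Γ) (g : GG Γ M hM), res Γ M hM γ = g → (γ : Ω ≃ₐ[F] Ω) y0 = y g := by
    intro γ g hg
    have h1 : res Γ M hM ((c g)⁻¹ * γ) = 1 := by
      rw [map_mul, map_inv, hc, hg, inv_mul_cancel]
    have h2 := hy0 _ h1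
    have h3 : ((c g : Γ) : Ω ≃ₐ[F] Ω) ((((c g)⁻¹ * γ : Γ) : Ω ≃ₐ[F] Ω) y0) = (γ : Ω ≃ₐ[F] Ω) y0 := by
      rw [← AlgEquiv.mul_apply, ← Subgroup.coe_mul, mul_inv_cancel_left]
    rw [← h3, h2]
  have hγy : ∀ (γ : Γ) (g : GG Γ M hM), (γ : Ω ≃ₐ[F] Ω) (y g) = y (bar γ * g) := by
    intro γ g
    rw [← hyγ (γ * c g) (bar γ * g) (by rw [map_mul, hc]; rfl)]
    rfl
  have hγv : ∀ (γ : Γ) (g : GG Γ M hM), (γ : Ω ≃ₐ[F] Ω) (v g) = v (bar γ * g) := by
    intro γ g
    have h1 : v (bar γ * g) = ((γ * c g : Γ) : Ω ≃ₐ[F] Ω) x0 :=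
      smul_coe Γ M hM (bar γ * g) (γ * c g) (by rw [map_mul, hc]; rfl) x0
    rw [h1, hvc]
    rfl
  have hy2 : ∀ g, (y g) ^ 2 = (f.map φ).eval (v g) := by
    intro g
    have h1 : (y g) ^ 2 = ((c g : Γ) : Ω ≃ₐ[F] Ω) (y0 ^ 2) := (map_pow _ _ _).symm
    rw [h1, hsq, hvc]
    have h2 := Polynomial.eval_map_apply (((c g : Γ) : Ω ≃ₐ[F] Ω) : Ω →+* Ω) (p := f.map φ) (x0 : Ω)
    rw [hfmap _ (c g).2] at h2
    exact h2.symm
  have hyne : ∀ g, y g ≠ 0 := by
    intro g h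
    exact hne (((c g : Γ) : Ω ≃ₐ[F] Ω).injective (by rw [map_zero]; exact h))
  have hτv : ∀ g, τ (v g) = v g := fun g => hτM _ (g • x0 : M).2
  have hτy' : ∀ g, τ (y g) = - y g := fun g => hτy (c g)
  -- the polynomials
  set U : Polynomial Ω := ∏ g : GG Γ M hM, (X - C (v g)) with hU
  set W : Polynomial Ω := Lagrange.interpolate Finset.univ v y with hW
  have hinjOn : Set.InjOn v ((Finset.univ : Finset (GG Γ M hM)) : Set (GG Γ M hM)) :=
    fun a _ b _ h => hvinj h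
  have hWdeg : W.degree < (Finset.univ : Finset (GG Γ M hM)).card :=
    Lagrange.degree_interpolate_lt _ hinjOn
  have hWev : ∀ g, W.eval (v g) = y g := fun g =>
    Lagrange.eval_interpolate_at_node _ hinjOn (Finset.mem_univ g)
  have hUγ : ∀ γ ∈ Γ, U.map (γ : Ω →+* Ω) = U := by
    intro γ hγ
    rw [hU, Polynomial.map_prod]
    rw [← Equiv.prod_comp (Equiv.mulLeft (bar ⟨γ, hγ⟩)) (fun g => X - C (v g))]
    refine Finset.prod_congr rfl fun g _ => ?_
    rw [Polynomial.map_sub, Polynomial.map_X, Polynomial.map_C]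
    have := hγv ⟨γ, hγ⟩ g
    simp only [Equiv.coe_mulLeft]
    rw [← this]
    rfl
  have hWγ : ∀ γ ∈ Γ, W.map (γ : Ω →+* Ω) = W := by
    intro γ hγ
    refine Lagrange.eq_interpolate_of_eval_eq _ hinjOn
      (lt_of_le_of_lt (Polynomial.degree_map_le) hWdeg) ?_
    intro g _
    have h1 : v g = γ (v ((bar ⟨γ, hγ⟩)⁻¹ * g)) := by
      have := hγv ⟨γ, hγ⟩ ((bar ⟨γ, hγ⟩)⁻¹ * g)
      rw [mul_inv_cancel_left] at this
      exact this.symm
    have h2 : y g = γ (y ((bar ⟨γ, hγ⟩)⁻¹ * g)) := by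
      have := hγy ⟨γ, hγ⟩ ((bar ⟨γ, hγ⟩)⁻¹ * g)
      rw [mul_inv_cancel_left] at this
      exact this.symm
    rw [h1, h2, ← hWev]
    exact Polynomial.eval_map_apply (γ : Ω →+* Ω) _
  obtain ⟨u, hu⟩ := exists_descent Γ U hUγ
  obtain ⟨w, hw⟩ := exists_descent Γ W hWγ
  refine ⟨u, w, hu, ?_, ?_, ?_, ?_⟩
  · rw [← Polynomial.map_dvd_map' φ, Polynomial.map_sub, Polynomial.map_pow, hu, hw, hU]
    refine Finset.prod_dvd_of_coprime ?_ ?_
    · intro a _ b _ hab
      exact Polynomial.pairwise_coprime_X_sub_C hvinj hab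
    · intro g _
      rw [Polynomial.dvd_iff_isRoot, Polynomial.IsRoot.def, Polynomial.eval_sub,
        Polynomial.eval_pow, hWev, hy2, sub_self]
  · rw [← Polynomial.isCoprime_map φ, hu, hw, hU]
    refine IsCoprime.prod_left fun g _ => ?_
    rw [(Polynomial.irreducible_X_sub_C (v g)).coprime_iff_not_dvd, Polynomial.dvd_iff_isRoot,
      Polynomial.IsRoot.def, hWev]
    exact hyne g
  · intro i
    have h1 : ((u.coeff i : IntermediateField.fixedField Γ) : Ω) = U.coeff i := by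
      rw [← hu, coeff_map]; rfl
    rw [h1]
    have h2 : U.map (τ : Ω →+* Ω) = U := by
      rw [hU, Polynomial.map_prod]
      refine Finset.prod_congr rfl fun g _ => ?_
      rw [Polynomial.map_sub, Polynomial.map_X, Polynomial.map_C]
      have := hτv g
      congr 2
    have h3 := congrArg (fun r => r.coeff i) h2
    simpa [coeff_map] using h3
  · intro i
    have h1 : ((w.coeff i : IntermediateField.fixedField Γ) : Ω) = W.coeff i := by
      rw [← hw, coeff_map]; rfl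
    rw [h1]
    have h2 : - (W.map (τ : Ω →+* Ω)) = W := by
      refine Lagrange.eq_interpolate_of_eval_eq _ hinjOn ?_ ?_
      · rw [degree_neg]
        exact lt_of_le_of_lt (Polynomial.degree_map_le) hWdeg
      · intro g _
        rw [eval_neg]
        have h3 : v g = τ (v g) := (hτv g).symm
        have h4 : eval (v g) (W.map (τ : Ω →+* Ω)) = τ (W.eval (v g)) := by
          conv_lhs => rw [h3]
          exact Polynomial.eval_map_apply (τ : Ω →+* Ω) _
        rw [h4, hWev, hτy', neg_neg]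
    have h3 := congrArg (fun r => r.coeff i) h2
    simp only [coeff_neg, coeff_map] at h3
    rw [← h3, neg_neg]
    conv_lhs => rw [h3]
    rfl

end Interp

end PTSm

end Pool.Agent.H62.HE
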