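import Pool.Agent.H62.HE.Defs
import Pool.Agent.H23.Index
import Pool.Agent.H23.Psi
import Pool.Agent.H23.HJ

/-!
# PTS, part a: the automorphism `τ` and the character `ψ`
-/

open Polynomial

namespace Pool.Agent.H62.HE

universe u

namespace PTSm

/-- an automorphism fixing `M` and changing the sign of the root of a non-square -/
lemma exists_tau {Ω : Type u} [Field Ω] [CharZero Ω] [IsAlgClosed Ω] (M : Subfield Ω) (g0 : M)
    (hsq : ¬ IsSquare g0) : ∃ τ : Ω ≃+* Ω, (∀ x ∈ M, τ x = x) ∧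
      ∀ r : Ω, r ^ 2 = (g0 : Ω) → τ r = - r := by
  classical
  obtain ⟨s, hs⟩ := exists_isTranscendenceBasis M Ω
  set N := IntermediateField.adjoin M (Set.range ((↑) : s → Ω)) with hN
  have halg : Algebra.IsAlgebraic N Ω := hs.isAlgebraic_field
  have hcM : CharZero M := (algebraMap M Ω).charZero
  have hcN : CharZero N := (algebraMap N Ω).charZero
  have hcl : IsAlgClosure N Ω := ⟨inferInstance, halg⟩
  have hgal : IsGalois N Ω := inferInstance
  obtain ⟨r0, hr0⟩ := IsAlgClosed.exists_pow_nat_eq (g0 : Ω) (n := 2) two_pos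
  have hmem : r0 ∉ (⊥ : IntermediateField N Ω) := by
    intro hmem
    rw [IntermediateField.mem_bot] at hmem
    obtain ⟨y, hy⟩ := hmem
    apply hsq
    refine Pool.Agent.H23.isSquare_of_isSquare_adjoin hs.1 ⟨y, ?_⟩
    apply Subtype.ext
    have h1 : (y : Ω) = r0 := hy
    change (g0 : Ω) = (y : Ω) * (y : Ω)
    rw [h1, ← hr0, pow_two]
  have hex : ∃ τ : Ω ≃ₐ[N] Ω, τ r0 ≠ r0 := by
    by_contra hcon
    push Not at hcon
    exact hmem ((InfiniteGalois.mem_bot_iff_fixed (k := N) r0).2 hcon)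
  obtain ⟨τ, hτ⟩ := hex
  have hfix : ∀ x ∈ M, τ x = x := by
    intro x hx
    have h1 := τ.commutes (algebraMap M N ⟨x, hx⟩)
    exact h1
  have hτ0 : τ r0 = - r0 := by
    have h1 : (τ r0) ^ 2 = r0 ^ 2 := by
      rw [← map_pow, hr0, hfix _ g0.2]
    rcases sq_eq_sq_iff_eq_or_eq_neg.1 h1 with h | h
    · exact absurd h hτ
    · exact h
  refine ⟨τ.toRingEquiv, hfix, fun r hr => ?_⟩
  change τ r = - r
  rcases sq_eq_sq_iff_eq_or_eq_neg.1 (hr.trans hr0.symm) with h | h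
  · rw [h, hτ0]
  · rw [h, map_neg, hτ0]

/-- the quadratic character of `M` defined by `τ` -/
lemma exists_psi {Ω : Type u} [Field Ω] [CharZero Ω] [IsAlgClosed Ω] (M : Subfield Ω)
    (τ : Ω ≃+* Ω) (hτ : ∀ x ∈ M, τ x = x) :
    ∃ ψ : Mˣ →* ℤˣ, ∀ (x : Mˣ) (r : Ω), r ^ 2 = ((x : M) : Ω) →
      τ r = (((ψ x : ℤˣ) : ℤ) : Ω) * r := by
  classical
  have hsq : ∀ x : Mˣ, ∃ r : Ω, r ^ 2 = ((x : M) : Ω) := fun x =>
    IsAlgClosed.exists_pow_nat_eq _ two_pos
  choose r hr using hsq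
  have hr0 : ∀ x : Mˣ, ∀ r : Ω, r ^ 2 = ((x : M) : Ω) → r ≠ 0 := by
    rintro x r h1 rfl
    apply x.ne_zero
    have : ((x : M) : Ω) = 0 := by rw [← h1]; ring
    exact_mod_cast this
  have hpm : ∀ x : Mˣ, τ (r x) = r x ∨ τ (r x) = - r x := by
    intro x
    apply sq_eq_sq_iff_eq_or_eq_neg.1
    rw [← map_pow, hr, hτ _ (x : M).2]
  let e : Mˣ → ℤˣ := fun x => if τ (r x) = r x then 1 else -1
  have he : ∀ (x : Mˣ) (t : Ω), t ^ 2 = ((x : M) : Ω) → τ t = (((e x : ℤˣ) : ℤ) : Ω) * t := by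
    intro x t ht
    have h1 : τ (r x) = (((e x : ℤˣ) : ℤ) : Ω) * r x := by
      by_cases h : τ (r x) = r x
      · simp [e, h]
      · simp only [e, if_neg h]
        rcases hpm x with h2 | h2
        · exact absurd h2 h
        · rw [h2]; simp
    rcases sq_eq_sq_iff_eq_or_eq_neg.1 (ht.trans (hr x).symm) with h | h
    · rw [h, h1]
    · rw [h, map_neg, h1]; ring
  have huniq : ∀ (a b : ℤˣ) (t : Ω), t ≠ 0 → (((a : ℤˣ) : ℤ) : Ω) * t = (((b : ℤˣ) : ℤ) : Ω) * t →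
      a = b := by
    intro a b t ht h
    have h1 := mul_right_cancel₀ ht h
    exact Units.ext (by exact_mod_cast h1)
  refine ⟨{ toFun := e, map_one' := ?_, map_mul' := ?_ }, he⟩
  · apply huniq _ _ (1 : Ω) one_ne_zero
    rw [← he 1 1 (by simp)]
    simp
  · intro x y
    have h1 : (r x * r y) ^ 2 = (((x * y : Mˣ) : M) : Ω) := by
      rw [mul_pow, hr, hr]; simp
    apply huniq _ _ (r x * r y) (hr0 _ _ h1)
    rw [← he _ _ h1, map_mul, he x _ (hr x), he y _ (hr y)]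
    push_cast
    ring

end PTSm

end Pool.Agent.H62.HE
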