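import Pool.Agent.H62.HE.PTSa

/-!
# PTS, part b: the fields `M ⊆ L` and the finite group `G`
-/

open Polynomial

namespace Pool.Agent.H62.HE

universe u

namespace PTSm

section Res

variable {F Ω : Type u} [Field F] [Field Ω] [Algebra F Ω] (Γ : Subgroup (Ω ≃ₐ[F] Ω))
  (M : Subfield Ω) (hM : ∀ γ ∈ Γ, ∀ x ∈ M, γ x ∈ M)

/-- restriction of `Γ` to `M` -/
def res : Γ →* RingAut M where
  toFun γ :=
    { toFun := fun x => ⟨(γ : Ω ≃ₐ[F] Ω) x, hM _ γ.2 _ x.2⟩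
      invFun := fun x => ⟨((γ⁻¹ : Γ) : Ω ≃ₐ[F] Ω) x, hM _ (γ⁻¹ : Γ).2 _ x.2⟩
      left_inv := fun x => by
        apply Subtype.ext
        change ((γ⁻¹ : Γ) : Ω ≃ₐ[F] Ω) ((γ : Ω ≃ₐ[F] Ω) x) = x
        rw [← AlgEquiv.mul_apply, ← Subgroup.coe_mul, inv_mul_cancel]
        rfl
      right_inv := fun x => by
        apply Subtype.ext
        change (γ : Ω ≃ₐ[F] Ω) (((γ⁻¹ : Γ) : Ω ≃ₐ[F] Ω) x) = x
        rw [← AlgEquiv.mul_apply, ← Subgroup.coe_mul, mul_inv_cancel]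
        rfl
      map_mul' := fun x y => Subtype.ext (map_mul _ _ _)
      map_add' := fun x y => Subtype.ext (map_add _ _ _) }
  map_one' := by
    ext x
    rfl
  map_mul' a b := by
    ext x
    rfl

lemma res_apply (γ : Γ) (x : M) : ((res Γ M hM γ x : M) : Ω) = (γ : Ω ≃ₐ[F] Ω) x := rfl

/-- the group `G` -/
abbrev GG : Subgroup (RingAut M) := (res Γ M hM).range

end Res

section Data

variable {F Ω : Type u} [Field F] [Field Ω] [Algebra F Ω] (Γ : Subgroup (Ω ≃ₐ[F] Ω))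
  (A : Finset Ω)

lemma stable (hA : ∀ γ ∈ Γ, ∀ a ∈ A, γ a ∈ A) :
    ∀ γ ∈ Γ, ∀ x ∈ Subfield.closure (A : Set Ω), γ x ∈ Subfield.closure (A : Set Ω) := by
  intro γ hγ x hx
  have h1 : Subfield.closure (A : Set Ω) ≤
      (Subfield.closure (A : Set Ω)).comap (γ : Ω →+* Ω) := by
    rw [Subfield.closure_le]
    intro a ha
    exact Subfield.subset_closure (hA γ hγ a ha)
  exact h1 hx

lemma finite_GG (hA : ∀ γ ∈ Γ, ∀ a ∈ A, γ a ∈ A) :
    Finite (GG Γ (Subfield.closure (A : Set Ω)) (stable Γ A hA)) := by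
  classical
  set M := Subfield.closure (A : Set Ω) with hM
  have hAM : ∀ a ∈ A, a ∈ M := fun a ha => Subfield.subset_closure ha
  let f : GG Γ M (stable Γ A hA) → (A → Ω) := fun g a => ((g : RingAut M) ⟨a, hAM a a.2⟩ : M)
  have hf : ∀ g a, f g a ∈ A := by
    rintro ⟨g, γ, rfl⟩ a
    exact hA γ γ.2 a a.2
  let f' : GG Γ M (stable Γ A hA) → (A → A) := fun g a => ⟨f g a, hf g a⟩
  refine Finite.of_injective f' ?_
  rintro ⟨g, γ, rfl⟩ ⟨g', γ', rfl⟩ h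
  apply Subtype.ext
  change res Γ M (stable Γ A hA) γ = res Γ M (stable Γ A hA) γ'
  have h1 : Set.EqOn (((γ : Ω ≃ₐ[F] Ω) : Ω →+* Ω)) ((γ' : Ω ≃ₐ[F] Ω) : Ω →+* Ω) (A : Set Ω) := by
    intro a ha
    have h2 := congrArg Subtype.val (congrFun h ⟨a, ha⟩)
    exact h2
  have h2 := RingHom.eqOn_field_closure h1
  ext x
  exact h2 x.2

/-- the kernel of the restriction, as a subgroup of the Galois group -/
def ker0 (M : Subfield Ω) (hM : ∀ γ ∈ Γ, ∀ x ∈ M, γ x ∈ M) : Subgroup (Ω ≃ₐ[F] Ω) :=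
  (res Γ M hM).ker.map Γ.subtype

lemma mem_ker0 {M : Subfield Ω} {hM : ∀ γ ∈ Γ, ∀ x ∈ M, γ x ∈ M} {γ : Ω ≃ₐ[F] Ω} :
    γ ∈ ker0 Γ M hM ↔ ∃ h : γ ∈ Γ, res Γ M hM ⟨γ, h⟩ = 1 := by
  constructor
  · rintro ⟨δ, hδ, rfl⟩
    exact ⟨δ.2, hδ⟩
  · rintro ⟨h, h1⟩
    exact ⟨⟨γ, h⟩, h1, rfl⟩

lemma ker0_fg (hΓ : Γ.FG) (M : Subfield Ω) (hM : ∀ γ ∈ Γ, ∀ x ∈ M, γ x ∈ M)
    (hfin : Finite (GG Γ M hM)) : (ker0 Γ M hM).FG := by
  classical
  have h1 : Group.FG Γ := (Group.fg_iff_subgroup_fg Γ).2 hΓ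
  have h2 : (res Γ M hM).ker.FiniteIndex := by
    have : Finite (Γ ⧸ (res Γ M hM).ker) :=
      Finite.of_equiv _ (QuotientGroup.quotientKerEquivRange (res Γ M hM)).symm.toEquiv
    exact Subgroup.finiteIndex_of_finite_quotient
  have h3 : Group.FG (res Γ M hM).ker := Subgroup.fg_of_index_ne_zero _
  have h4 : (res Γ M hM).ker.FG := (Group.fg_iff_subgroup_fg _).1 h3
  obtain ⟨S, hS⟩ := h4
  exact ⟨S.image Γ.subtype, by rw [Finset.coe_image, ← MonoidHom.map_closure, hS]; rfl⟩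

lemma fg_eq_closure {G : Type u} [Group G] {H : Subgroup G} (h : H.FG) :
    ∃ (n : ℕ) (s : Fin n → G), H = Subgroup.closure (Set.range s) := by
  obtain ⟨S, hS⟩ := h
  refine ⟨S.card, fun i => (S.equivFin.symm i : G), ?_⟩
  rw [← hS]
  congr 1
  ext x
  constructor
  · intro hx
    exact ⟨S.equivFin ⟨x, hx⟩, by simp⟩
  · rintro ⟨i, rfl⟩
    exact (S.equivFin.symm i).2

end Data

/-- all the data -/
lemma exists_fields {F Ω : Type u} [Field F] [Field Ω] [Algebra F Ω] [IsSepClosed Ω] [CharZero Ω]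
    (Γ : Subgroup (Ω ≃ₐ[F] Ω)) (hΓ : Γ.FG) (A : Finset Ω) (hA : ∀ γ ∈ Γ, ∀ a ∈ A, γ a ∈ A) :
    ∃ (M : Subfield Ω) (hM : ∀ γ ∈ Γ, ∀ x ∈ M, γ x ∈ M) (L : IntermediateField F Ω),
      (∀ a ∈ A, a ∈ M) ∧ Finite (GG Γ M hM) ∧ Algebra.EssFiniteType ℚ M ∧
      (∀ x ∈ M, x ∈ L) ∧ (∀ x ∈ L, ∀ γ : Γ, res Γ M hM γ = 1 → (γ : Ω ≃ₐ[F] Ω) x = x) ∧
      Finite (Lˣ ⧸ (powMonoidHom 2 : Lˣ →* Lˣ).range) := by
  classical
  refine ⟨Subfield.closure (A : Set Ω), stable Γ A hA,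
    IntermediateField.fixedField (ker0 Γ _ (stable Γ A hA)),
    fun a ha => Subfield.subset_closure ha, finite_GG Γ A hA, ?_, ?_, ?_, ?_⟩
  · have h1 : Algebra.EssFiniteType ℚ (IntermediateField.adjoin ℚ (A : Set Ω)) :=
      IntermediateField.essFiniteType_iff.2 ⟨A, rfl⟩
    have h2 : ((IntermediateField.adjoin ℚ (A : Set Ω)).toSubfield) =
        Subfield.closure (A : Set Ω) := by
      apply le_antisymm
      · have : IntermediateField.adjoin ℚ (A : Set Ω) ≤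
            (Subfield.closure (A : Set Ω)).toIntermediateField (by
              intro q
              simp) := by
          rw [IntermediateField.adjoin_le_iff]
          exact Subfield.subset_closure
        exact this
      · rw [Subfield.closure_le]
        exact IntermediateField.subset_adjoin ℚ _
    rw [← h2]
    convert h1
    exact Iff.rfl
  · intro x hx
    rw [IntermediateField.mem_fixedField_iff]
    intro γ hγ
    obtain ⟨h, h1⟩ := (mem_ker0 Γ).1 hγ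
    have h2 := congrArg (fun g : RingAut _ => ((g ⟨x, hx⟩ : Subfield.closure (A : Set Ω)) : Ω)) h1
    exact h2
  · intro x hx γ hγ
    rw [IntermediateField.mem_fixedField_iff] at hx
    exact hx γ ((mem_ker0 Γ).2 ⟨γ.2, hγ⟩)
  · obtain ⟨n, s, hs⟩ := fg_eq_closure (ker0_fg Γ hΓ _ (stable Γ A hA) (finite_GG Γ A hA))
    rw [hs]
    exact Pool.Agent.H23.finite_powerClasses s 2

end PTSm

end Pool.Agent.H62.HE
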